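import Pool.Agent.H59.L.S8.Y506.FF.Stm
import Pool.Agent.H59.L.S8.W12.KH.Lim
import Pool.Agent.H59.L.S8.W762.KH.Proj
import Pool.Agent.H59.L.S8.W880.KH.Body

/-! Job FF-MILB: from the potentials to the body (adaptation of `Pool.Agent.W880.KH.t_body`). -/

set_option autoImplicit false
set_option linter.all false

namespace Pool.Agent.Y665.FF

open MeasureTheory Set Filter Topology
open Pool.Agent.W695.KH Pool.Agent.Y506.FF
open Pool.Agent.W12.KH (wt wt_cont wt_pos wt_int tend EU_eq t_lim)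
open Pool.Agent.W880.KH (EU_le EU_sub_const EU_sub_sq)
open scoped ENNReal InnerProductSpace Pointwise

variable {κ : Type} [Fintype κ]

theorem wt_one {D : Set (Eu κ)} {A : ℝ} {x : Eu κ} (hx : x ∈ D) : wt D A x = 1 := by
  unfold wt
  rw [Metric.infDist_zero_of_mem hx]
  simp

/-- uniform comparison of the means -/
theorem unif {D : Set (Eu κ)} (hD : IsCompact D) (hne : D.Nonempty) (hvol : 0 < volume D) {A : ℝ}
    (hA : 0 < A) {w : Eu κ → ℝ} (hw : Continuous w) (hw1 : ∀ x, |w x| ≤ 1) :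
    |EU (Uu D A) w - EV D w| ≤ 2 * (1 - (volume D).toReal / ∫ x, wt D A x) ∧ |EV D w| ≤ 1 := by
  have hfin : volume D ≠ ⊤ := hD.measure_lt_top.ne
  have hV : 0 < (volume D).toReal := ENNReal.toReal_pos hvol.ne' hfin
  have i1 : Integrable (wt D A) := by
    have := wt_int (κ := κ) hD hne hA (g := fun _ => 1) (B := 1) continuous_const
      (fun x => by rw [abs_one, one_mul]; nlinarith [sq_nonneg ‖x‖])
    simpa using this
  have i2 : Integrable fun x => w x * wt D A x :=
    wt_int hD hne hA (B := 1) hw (fun x => by nlinarith [hw1 x, sq_nonneg ‖x‖])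
  have i3 : Integrable (D.indicator fun _ : Eu κ => (1 : ℝ)) :=
    (integrable_indicator_iff hD.measurableSet).2 (integrableOn_const hfin)
  have i4 : Integrable (D.indicator w) :=
    (integrable_indicator_iff hD.measurableSet).2 (hw.continuousOn.integrableOn_compact hD)
  have e1 : ∫ x, D.indicator (fun _ : Eu κ => (1 : ℝ)) x = (volume D).toReal := by
    rw [integral_indicator hD.measurableSet]
    simp [Measure.real]
  have e2 : ∫ x, D.indicator w x = ∫ x in D, w x := integral_indicator hD.measurableSet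
  set Z := ∫ x, wt D A x with hZ
  set V := (volume D).toReal with hVdef
  -- the difference of the integrals
  have hdiff : |(∫ x, w x * wt D A x) - ∫ x in D, w x| ≤ Z - V := by
    rw [← e2, ← integral_sub i2 i4, ← e1, hZ, ← integral_sub i1 i3, ← Real.norm_eq_abs]
    refine norm_integral_le_of_norm_le (i1.sub i3) (Eventually.of_forall fun x => ?_)
    by_cases hx : x ∈ D
    · rw [indicator_of_mem hx, indicator_of_mem hx, wt_one hx]
      simp
    · rw [indicator_of_notMem hx, indicator_of_notMem hx, sub_zero, sub_zero, norm_mul,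
        Real.norm_eq_abs, Real.norm_eq_abs, abs_of_pos (wt_pos D A x)]
      exact mul_le_of_le_one_left (wt_pos D A x).le (hw1 x)
  have hDw : |∫ x in D, w x| ≤ V := by
    rw [← e2, ← e1, ← Real.norm_eq_abs]
    refine norm_integral_le_of_norm_le i3 (Eventually.of_forall fun x => ?_)
    by_cases hx : x ∈ D
    · rw [indicator_of_mem hx, indicator_of_mem hx]
      exact hw1 x
    · rw [indicator_of_notMem hx, indicator_of_notMem hx]
      simp
  have hZV : V ≤ Z := by
    have := (abs_nonneg _).trans hdiff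
    linarith
  have hZ0 : 0 < Z := hV.trans_le hZV
  constructor
  · rw [EU_eq hD hne hA]
    show |(∫ x, w x * wt D A x) / Z - (∫ x in D, w x) / V| ≤ _
    have e3 : (∫ x, w x * wt D A x) / Z - (∫ x in D, w x) / V =
        ((∫ x, w x * wt D A x) - ∫ x in D, w x) / Z - (∫ x in D, w x) * ((Z - V) / (Z * V)) := by
      field_simp
      ring
    rw [e3]
    refine (abs_sub _ _).trans ?_
    have hq : 0 ≤ (Z - V) / (Z * V) := div_nonneg (by linarith) (by positivity)
    rw [abs_div, abs_of_pos hZ0, abs_mul, abs_of_nonneg hq]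
    have h1 : |(∫ x, w x * wt D A x) - ∫ x in D, w x| / Z ≤ (Z - V) / Z :=
      div_le_div_of_nonneg_right hdiff hZ0.le
    have h2 : |∫ x in D, w x| * ((Z - V) / (Z * V)) ≤ V * ((Z - V) / (Z * V)) :=
      mul_le_mul_of_nonneg_right hDw (div_nonneg (by linarith) (by positivity))
    have h3 : V * ((Z - V) / (Z * V)) = (Z - V) / Z := by
      field_simp
    have h4 : (Z - V) / Z = 1 - V / Z := by
      field_simp
    rw [h3] at h2
    rw [h4] at h1 h2
    linarith
  · unfold EV
    rw [abs_div, abs_of_pos hV, div_le_one hV]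
    exact hDw

theorem milb (h : S_MILA) : S_MILB := by
  intro κ _ D hD hconv hvol δ l hδ hl hLC f L M hf hfb hV
  have hne : D.Nonempty := by
    by_contra h
    rw [not_nonempty_iff_eq_empty] at h
    rw [h] at hvol
    simp at hvol
  have hlim := t_lim κ D hD hconv hvol
  have hfin : volume D ≠ ⊤ := hD.measure_lt_top.ne
  have hV0 : 0 < (volume D).toReal := ENNReal.toReal_pos hvol.ne' hfin
  have hcont : Continuous f := hf.diff.continuous
  have hL : 0 ≤ L := (norm_nonneg _).trans (hf.grad 0)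
  have hgc : Continuous fun x => ‖fderiv ℝ f x‖ :=
    (hf.diff.continuous_fderiv one_ne_zero).norm
  have ht1 := hlim f 1 hcont (fun x => by
    have := hf.bdd x
    nlinarith [sq_nonneg ‖x‖])
  have ht2 := hlim (fun x => f x ^ 2) 1 (hcont.pow 2) (fun x => by
    have h1 := hf.bdd x
    have h2 : |f x ^ 2| ≤ 1 := by
      rw [abs_pow]
      exact pow_le_one₀ (abs_nonneg _) h1
    nlinarith [sq_nonneg ‖x‖])
  have ht3 := hlim (fun x => ‖fderiv ℝ f x‖) L hgc (fun x => by
    have h1 := hf.grad x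
    rw [abs_norm]
    nlinarith [sq_nonneg ‖x‖, mul_nonneg hL (sq_nonneg ‖x‖)])
  have hv : Tendsto (fun A : ℝ => EU (Uu D A) (fun x => f x ^ 2) - EU (Uu D A) f ^ 2) atTop
      (𝓝 (VV D f)) := ht2.sub (ht1.pow 2)
  have hr : Tendsto (fun A : ℝ => 2 / l * (EU (Uu D A) fun x => ‖fderiv ℝ f x‖)) atTop
      (𝓝 (2 / l * (EV D fun x => ‖fderiv ℝ f x‖))) := ht3.const_mul _
  have hZ : Tendsto (fun A : ℝ => ∫ x, wt D A x) atTop (𝓝 (volume D).toReal) := by
    have h2 := tend (κ := κ) hD hne (g := fun _ => 1) (B := 1) continuous_const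
      (fun x => by rw [abs_one, one_mul]; nlinarith [sq_nonneg ‖x‖])
    have h3 : (∫ _x in D, (1 : ℝ)) = (volume D).toReal := by
      simp [Measure.real]
    rw [h3] at h2
    simpa using h2
  have hτ : Tendsto (fun A : ℝ => 1 - (volume D).toReal / ∫ x, wt D A x) atTop (𝓝 0) := by
    have h2 := (tendsto_const_nhds (x := (volume D).toReal) (f := (atTop : Filter ℝ))).div hZ
      hV0.ne'
    rw [div_self hV0.ne'] at h2
    have h3 := (tendsto_const_nhds (x := (1 : ℝ)) (f := (atTop : Filter ℝ))).sub h2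
    rw [sub_self] at h3
    exact h3
  obtain ⟨η, hη, hη2⟩ : ∃ η : ℝ, 0 < η ∧ 4 * (δ + η) < VV D f :=
    ⟨(VV D f - 4 * δ) / 8, by linarith, by linarith⟩
  refine le_of_tendsto_of_tendsto hv hr ?_
  filter_upwards [hτ.eventually_lt_const (show (0 : ℝ) < η / 6 by positivity),
    hv.eventually (lt_mem_nhds hη2), eventually_gt_atTop 0] with A hA1 hA2 hA3
  obtain ⟨⟨b, hb⟩, hA4, _⟩ := Pool.Agent.W762.KH.t_proj κ D hD hconv hne A hA3
  have hLU : ∀ v : Eu κ → ℝ, ContDiff ℝ 1 v → (∀ x, |v x| ≤ 1) → (∀ x, ‖fderiv ℝ v x‖ ≤ l) →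
      EU (Uu D A) (fun x => v x ^ 2) - EU (Uu D A) v ^ 2 ≤ δ + η := by
    intro v hv1 hv2 hv3
    have h1 := hLC v hv1 hv2 hv3
    have hv4 : ∀ x, |v x ^ 2| ≤ 1 := fun x => by
      rw [abs_pow]
      exact pow_le_one₀ (abs_nonneg _) (hv2 x)
    obtain ⟨k1, k2⟩ := unif hD hne hvol hA3 hv1.continuous hv2
    obtain ⟨k3, k4⟩ := unif (w := fun x => v x ^ 2) hD hne hvol hA3 (hv1.continuous.pow 2) hv4
    have k5 := EU_le (Uu D A) hA4 v hv1.continuous 1 hv2
    have e : EU (Uu D A) (fun x => v x ^ 2) - EU (Uu D A) v ^ 2 =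
        VV D v + (EU (Uu D A) (fun x => v x ^ 2) - EV D (fun x => v x ^ 2)) -
          (EU (Uu D A) v - EV D v) * (EU (Uu D A) v + EV D v) := by
      unfold VV
      ring
    have h2 : |(EU (Uu D A) v - EV D v) * (EU (Uu D A) v + EV D v)| ≤
        2 * (1 - (volume D).toReal / ∫ x, wt D A x) * 2 := by
      rw [abs_mul]
      have h3 : |EU (Uu D A) v + EV D v| ≤ 2 := by
        have := abs_add_le (EU (Uu D A) v) (EV D v)
        linarith
      exact mul_le_mul k1 h3 (abs_nonneg _) ((abs_nonneg _).trans k1)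
    have h3 := neg_abs_le ((EU (Uu D A) v - EV D v) * (EU (Uu D A) v + EV D v))
    have h4 := le_abs_self (EU (Uu D A) (fun x => v x ^ 2) - EV D (fun x => v x ^ 2))
    rw [e]
    linarith
  obtain ⟨m, hm⟩ : ∃ m, m = EU (Uu D A) f := ⟨_, rfl⟩
  have hmb : |m| ≤ 1 / 2 := hm ▸ EU_le (Uu D A) hA4 f hcont (1 / 2) hfb
  have hfd : ∀ x, fderiv ℝ (fun y => f y - m) x = fderiv ℝ f x := by
    intro x
    rw [fderiv_sub_const]
  have hS : Sm (fun x => f x - m) L M := by
    refine ⟨?_, hf.diff.sub contDiff_const, ?_, ?_⟩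
    · intro x
      have h1 := hfb x
      have h2 : |f x - m| ≤ |f x| + |m| := abs_sub _ _
      linarith
    · intro x
      rw [hfd]
      exact hf.grad x
    · intro x y
      rw [hfd, hfd]
      exact hf.lip x y
  have h1 : EU (Uu D A) (fun x => f x - m) = 0 := by
    rw [EU_sub_const (Uu D A) hA4 f hcont (1 / 2) hfb m, hm, sub_self]
  have h2 : EU (Uu D A) (fun x => (f x - m) ^ 2) =
      EU (Uu D A) (fun x => f x ^ 2) - EU (Uu D A) f ^ 2 := by
    rw [EU_sub_sq (Uu D A) hA4 f hcont (1 / 2) hfb m, ← hm]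
    ring
  have h3 := h κ (Uu D A) b A hb hA4 (δ + η) l (by positivity) hl hLU (fun x => f x - m) L M hS h1
    (by rw [h2]; exact hA2)
  rw [h2] at h3
  simp only [hfd] at h3
  exact h3

end Pool.Agent.Y665.FF
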